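import Pool.Agent.Results.MP_2dff6e_gt.PuncturedPlane

set_option autoImplicit false

open Set Filter Topology
open scoped ContDiff

namespace Pool.Agent.Y475.Sy

open Pool.Agent.Results.MP_2dff6e_gt.PuncturedPlane

/-- `ℂⁿ` -/
abbrev E (n : ℕ) := EuclideanSpace ℂ (Fin n)

variable {n : ℕ}

/-- the coordinates, real-linear -/
noncomputable def pr (n : ℕ) (j : Fin n) : E n →L[ℝ] ℂ :=
  (EuclideanSpace.proj j : E n →L[ℂ] ℂ).restrictScalars ℝ

@[simp] lemma pr_apply (j : Fin n) (z : E n) : pr n j z = z j := rfl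

/-- the coordinate `xⱼ` of `ℂⁿ` -/
noncomputable def xc (n : ℕ) (j : Fin n) : E n →L[ℝ] ℝ := Complex.reCLM.comp (pr n j)

/-- the coordinate `yⱼ` of `ℂⁿ` -/
noncomputable def yc (n : ℕ) (j : Fin n) : E n →L[ℝ] ℝ := Complex.imCLM.comp (pr n j)

/-- the bilinear form `(v, w) ↦ f v * g w` -/
noncomputable def tens {F : Type} [NormedAddCommGroup F] [NormedSpace ℝ F] (f g : F →L[ℝ] ℝ) :
    F →L[ℝ] F →L[ℝ] ℝ := f.smulRight g

/-- the wedge product of two linear forms: `(v, w) ↦ f v * g w - g v * f w` -/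
noncomputable def wedge {F : Type} [NormedAddCommGroup F] [NormedSpace ℝ F] (f g : F →L[ℝ] ℝ) :
    F →L[ℝ] F →L[ℝ] ℝ := tens f g - tens g f

/-- the constant form `∑ fⱼ ∧ gⱼ` -/
noncomputable def form {F : Type} [NormedAddCommGroup F] [NormedSpace ℝ F] {n : ℕ}
    (f g : Fin n → F →L[ℝ] ℝ) : F → F →L[ℝ] F →L[ℝ] ℝ := fun _ => ∑ j, wedge (f j) (g j)

/-- the standard symplectic form `∑ dxⱼ ∧ dyⱼ` of `ℂⁿ` -/
noncomputable def omega (n : ℕ) : E n → E n →L[ℝ] E n →L[ℝ] ℝ := form (xc n) (yc n)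

lemma omega_apply (x v w : E n) :
    omega n x v w = ∑ j, ((v j).re * (w j).im - (v j).im * (w j).re) := by
  simp [omega, form, wedge, tens, xc, yc]

/-- `|z|²` -/
noncomputable def nsq (z : E n) : ℝ := ∑ j, Complex.normSq (z j)

/-- `Re ⟨y, v⟩` -/
noncomputable def RI (y v : E n) : ℝ := ∑ j, ((y j).re * (v j).re + (y j).im * (v j).im)

lemma nsq_eq (z : E n) : nsq z = ‖z‖ ^ 2 := by
  rw [EuclideanSpace.norm_sq_eq]
  unfold nsq
  exact Finset.sum_congr rfl fun j _ => Complex.normSq_eq_norm_sq _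

lemma nsq_nonneg (z : E n) : 0 ≤ nsq z := by rw [nsq_eq]; positivity

lemma contDiff_nsq : ContDiff ℝ ∞ (fun z : E n => nsq z) := by
  unfold nsq
  refine ContDiff.sum fun j _ => ?_
  exact contDiff_normSq.comp (pr n j).contDiff

lemma hasFDerivAt_nsq (z : E n) : ∃ D : E n →L[ℝ] ℝ, HasFDerivAt (fun z : E n => nsq z) D z ∧
    ∀ v, D v = 2 * RI z v := by
  refine ⟨∑ j, ((2 * (z j).re) • Complex.reCLM + (2 * (z j).im) • Complex.imCLM).comp (pr n j),
    ?_, fun v => ?_⟩
  · unfold nsq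
    refine HasFDerivAt.fun_sum fun j _ => ?_
    exact (hasFDerivAt_normSq (z j)).comp z (pr n j).hasFDerivAt
  · simp only [sum_apply, RI, Finset.mul_sum]
    refine Finset.sum_congr rfl fun j _ => ?_
    simp
    ring

/-- the rotation by the angle `α |z - p|²` -/
noncomputable def T (p : E n) (α : ℝ → ℝ) (z : E n) : E n :=
  p + Complex.exp ((α (nsq (z - p)) : ℂ) * Complex.I) • (z - p)

lemma T_sub (p : E n) (α : ℝ → ℝ) (z : E n) :
    T p α z - p = Complex.exp ((α (nsq (z - p)) : ℂ) * Complex.I) • (z - p) := by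
  unfold T; abel

lemma norm_T (p : E n) (α : ℝ → ℝ) (z : E n) : ‖T p α z - p‖ = ‖z - p‖ := by
  rw [T_sub, norm_smul, Complex.norm_exp_ofReal_mul_I, one_mul]

lemma nsq_T (p : E n) (α : ℝ → ℝ) (z : E n) : nsq (T p α z - p) = nsq (z - p) := by
  rw [nsq_eq, nsq_eq, norm_T]

lemma T_T (p : E n) (α β : ℝ → ℝ) (z : E n) : T p α (T p β z) = T p (fun N => α N + β N) z := by
  have h := nsq_T p β z
  have h2 : T p α (T p β z) = p + Complex.exp ((α (nsq (T p β z - p)) : ℂ) * Complex.I) •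
    (T p β z - p) := rfl
  rw [h2, h, T_sub]
  unfold T
  rw [smul_smul, ← Complex.exp_add]
  push_cast
  ring_nf

lemma T_zero (p z : E n) : T p (fun _ => 0) z = z := by
  simp [T]

lemma T_of_exp_eq_one {p : E n} {α : ℝ → ℝ} {z : E n}
    (h : Complex.exp ((α (nsq (z - p)) : ℂ) * Complex.I) = 1) : T p α z = z := by
  simp [T, h]

lemma contDiff_T_param {p : E n} {α : ℝ → ℝ} (hα : ContDiff ℝ ∞ α) :
    ContDiff ℝ ∞ (fun q : ℝ × E n => T p (fun N => q.1 * α N) q.2) := by
  have h0 : ContDiff ℝ ∞ (fun q : ℝ × E n => q.2 - p) := contDiff_snd.sub contDiff_const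
  have h1 : ContDiff ℝ ∞ (fun q : ℝ × E n => α (nsq (q.2 - p))) :=
    hα.comp (contDiff_nsq.comp h0)
  have h2 : ContDiff ℝ ∞ (fun q : ℝ × E n => q.1 * α (nsq (q.2 - p))) := contDiff_fst.mul h1
  have h3 : ContDiff ℝ ∞ (fun q : ℝ × E n => ((q.1 * α (nsq (q.2 - p)) : ℝ) : ℂ)) :=
    Complex.ofRealCLM.contDiff.comp h2
  have h4 : ContDiff ℝ ∞ (fun q : ℝ × E n =>
      ((q.1 * α (nsq (q.2 - p)) : ℝ) : ℂ) * Complex.I) := h3.mul contDiff_const
  exact contDiff_const.add (h4.cexp.smul h0)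

lemma contDiff_T {p : E n} {α : ℝ → ℝ} (hα : ContDiff ℝ ∞ α) : ContDiff ℝ ∞ (T p α) := by
  have h := (contDiff_T_param (p := p) hα).comp
    (contDiff_const.prodMk contDiff_id : ContDiff ℝ ∞ (fun z : E n => ((1 : ℝ), z)))
  have h2 : (fun q : ℝ × E n => T p (fun N => q.1 * α N) q.2) ∘ (fun z : E n => ((1 : ℝ), z)) =
      T p α := by
    ext z
    simp [T]
  rwa [h2] at h

lemma hasFDerivAt_T {p : E n} {α : ℝ → ℝ} (hα : ContDiff ℝ ∞ α) (z : E n) :
    ∃ D : E n →L[ℝ] E n, HasFDerivAt (T p α) D z ∧ ∀ v, D v =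
      Complex.exp ((α (nsq (z - p)) : ℂ) * Complex.I) •
        (v + (((deriv α (nsq (z - p)) * (2 * RI (z - p) v) : ℝ) : ℂ) * Complex.I) • (z - p)) := by
  have h1 : HasDerivAt α (deriv α (nsq (z - p))) (nsq (z - p)) :=
    (hα.differentiable (by simp)).differentiableAt.hasDerivAt
  obtain ⟨D0, hD0, hD0'⟩ := hasFDerivAt_nsq (z - p)
  have hs : HasFDerivAt (fun z : E n => z - p) (ContinuousLinearMap.id ℝ (E n)) z :=
    (hasFDerivAt_id z).sub_const p
  have h2 := h1.comp_hasFDerivAt z (hD0.comp z hs)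
  have h4 := (Complex.ofRealCLM.hasFDerivAt.comp z h2)
  have h3 := h4.mul_const Complex.I
  have h5 := h3.cexp
  have h6 := h5.smul hs
  have h7 := h6.const_add p
  refine ⟨_, h7, fun v => ?_⟩
  simp only [add_apply, smul_apply,
    ContinuousLinearMap.smulRight_apply, ContinuousLinearMap.comp_apply,
    ContinuousLinearMap.id_apply, Function.comp, hD0', Complex.ofRealCLM_apply, smul_eq_mul]
  rw [smul_add, smul_smul]
  congr 2
  simp
  ring

lemma omega_T {p : E n} {α : ℝ → ℝ} (hα : ContDiff ℝ ∞ α) (z v w : E n) :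
    omega n (T p α z) (fderiv ℝ (T p α) z v) (fderiv ℝ (T p α) z w) = omega n z v w := by
  obtain ⟨D, hD, hD'⟩ := hasFDerivAt_T (p := p) hα z
  rw [hD.fderiv, hD' v, hD' w, omega_apply, omega_apply]
  set y : E n := z - p with hy
  set d := deriv α (nsq y) with hd
  set c := Complex.exp ((α (nsq y) : ℂ) * Complex.I) with hc
  have hc1 : ‖c‖ = 1 := Complex.norm_exp_ofReal_mul_I _
  have key : ∀ j, ((c • (v + (((d * (2 * RI y v) : ℝ) : ℂ) * Complex.I) • y)) j).re *
        ((c • (w + (((d * (2 * RI y w) : ℝ) : ℂ) * Complex.I) • y)) j).im -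
      ((c • (v + (((d * (2 * RI y v) : ℝ) : ℂ) * Complex.I) • y)) j).im *
        ((c • (w + (((d * (2 * RI y w) : ℝ) : ℂ) * Complex.I) • y)) j).re =
      ((v j).re * (w j).im - (v j).im * (w j).re) +
        d * (2 * RI y w) * ((y j).re * (v j).re + (y j).im * (v j).im) -
        d * (2 * RI y v) * ((y j).re * (w j).re + (y j).im * (w j).im) := by
    intro j
    have h := area_unit_mul 0 0 c (v j + (((d * (2 * RI y v) : ℝ) : ℂ) * Complex.I) * y j)
      (w j + (((d * (2 * RI y w) : ℝ) : ℂ) * Complex.I) * y j) hc1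
    rw [area_apply, area_apply] at h
    simp only [PiLp.smul_apply, PiLp.add_apply, smul_eq_mul]
    rw [h]
    simp
    ring
  rw [Finset.sum_congr rfl fun j _ => key j, Finset.sum_sub_distrib, Finset.sum_add_distrib,
    ← Finset.mul_sum, ← Finset.mul_sum]
  have e1 : ∀ u : E n, ∑ j, ((y j).re * (u j).re + (y j).im * (u j).im) = RI y u := fun u => rfl
  rw [e1, e1]
  ring

lemma symplectic_omega {M : Set (E n)} (hM : IsOpen M) : SymplecticOn M (omega n) where
  isOpen := hM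
  smooth := contDiffOn_const
  alternating x _ v := by
    rw [omega_apply]
    refine Finset.sum_eq_zero fun j _ => ?_
    ring
  nondegenerate x _ v h := by
    have h1 := h (Complex.I • v)
    rw [omega_apply] at h1
    have h2 : nsq v = 0 := by
      rw [← h1]
      unfold nsq
      refine Finset.sum_congr rfl fun j _ => ?_
      simp [Complex.normSq_apply]
      
    rw [nsq_eq] at h2
    exact norm_eq_zero.1 (pow_eq_zero_iff (two_ne_zero) |>.1 h2)
  closed x _ u v w := by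
    have : fderiv ℝ (omega n) x = 0 := by
      unfold omega form
      exact (hasFDerivAt_const _ _).fderiv
    simp [this]

end Pool.Agent.Y475.Sy
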