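import Pool.Agent.Y475.Sy.Basic

set_option autoImplicit false

open Set Filter Topology
open scoped ContDiff

namespace Pool.Agent.Y475.Sy

open Pool.Agent.Results.MP_2dff6e_gt.PuncturedPlane

variable {n : ℕ}

/-- the matrix of the complex-linear part of a real-linear map -/
noncomputable def cmat (A : E n →L[ℝ] E n) : Matrix (Fin n) (Fin n) ℂ :=
  Matrix.of fun i j => (1 / 2 : ℂ) * (A (EuclideanSpace.single j 1) i -
    Complex.I * A (EuclideanSpace.single j Complex.I) i)

lemma continuous_cmat : Continuous (fun A : E n →L[ℝ] E n => (cmat A).det) := by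
  refine Continuous.matrix_det ?_
  refine continuous_matrix fun i j => ?_
  have h : ∀ v : E n, Continuous (fun A : E n →L[ℝ] E n => A v i) := fun v =>
    (pr n i).continuous.comp (ContinuousLinearMap.apply ℝ (E n) v).continuous
  exact continuous_const.mul ((h _).sub (continuous_const.mul (h _)))

lemma decomp (V : E n) : V = ∑ j, (((V j).re : ℝ) • (EuclideanSpace.single j (1 : ℂ) : E n) +
    ((V j).im : ℝ) • (EuclideanSpace.single j Complex.I : E n)) := by
  ext i
  rw [WithLp.ofLp_sum, Finset.sum_apply, Finset.sum_eq_single i]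
  · simp
  · intro j _ hj
    simp [hj.symm]
  · simp

lemma decompI (V : E n) : Complex.I • V =
    ∑ j, (((V j).re : ℝ) • (EuclideanSpace.single j Complex.I : E n) -
    ((V j).im : ℝ) • (EuclideanSpace.single j (1 : ℂ) : E n)) := by
  ext i
  rw [WithLp.ofLp_sum, Finset.sum_apply, Finset.sum_eq_single i]
  · simp
    apply Complex.ext <;> simp
  · intro j _ hj
    simp [hj.symm]
  · simp

lemma cmat_mulVec (A : E n →L[ℝ] E n) (V : E n) (i : Fin n) :
    ((cmat A).mulVec (fun j => V j)) i = (1 / 2 : ℂ) * (A V i - Complex.I * A (Complex.I • V) i) := by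
  have h1 : A V i = ∑ j, (((V j).re : ℂ) * A (EuclideanSpace.single j 1) i +
      ((V j).im : ℂ) * A (EuclideanSpace.single j Complex.I) i) := by
    conv_lhs => rw [decomp V]
    rw [map_sum, WithLp.ofLp_sum, Finset.sum_apply]
    refine Finset.sum_congr rfl fun j _ => ?_
    rw [map_add, map_smul, map_smul]
    simp
  have h2 : A (Complex.I • V) i = ∑ j, (((V j).re : ℂ) * A (EuclideanSpace.single j Complex.I) i -
      ((V j).im : ℂ) * A (EuclideanSpace.single j 1) i) := by
    conv_lhs => rw [decompI V]
    rw [map_sum, WithLp.ofLp_sum, Finset.sum_apply]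
    refine Finset.sum_congr rfl fun j _ => ?_
    rw [map_sub, map_smul, map_smul]
    simp
  rw [h1, h2, Finset.mul_sum, ← Finset.sum_sub_distrib, Finset.mul_sum]
  simp only [Matrix.mulVec, dotProduct, cmat, Matrix.of_apply]
  refine Finset.sum_congr rfl fun j _ => ?_
  conv_lhs => rw [← Complex.re_add_im (V j)]
  linear_combination (-(1 / 2 : ℂ) * ((V j).im : ℂ) *
    A (EuclideanSpace.single j Complex.I) i) * Complex.I_mul_I

/-- the complex-linear part of a symplectic map is invertible -/
lemma cmat_det_ne_zero {A : E n →L[ℝ] E n}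
    (hA : ∀ v w, omega n 0 (A v) (A w) = omega n 0 v w) : (cmat A).det ≠ 0 := by
  intro h
  obtain ⟨v, hv, hv0⟩ := Matrix.exists_mulVec_eq_zero_iff.2 h
  set V : E n := WithLp.toLp 2 v with hV
  have hVv : ∀ j, V j = v j := fun j => rfl
  have h1 : ∀ i, A V i = Complex.I * A (Complex.I • V) i := by
    intro i
    have := cmat_mulVec A V i
    have h2 : (cmat A).mulVec (fun j => V j) i = 0 := by
      have : (fun j => V j) = v := rfl
      rw [this, hv0]; rfl
    rw [h2] at this
    have h3 : A V i - Complex.I * A (Complex.I • V) i = 0 := by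
      have h4 : (1 / 2 : ℂ) ≠ 0 := by norm_num
      exact (mul_eq_zero.1 this.symm).resolve_left h4
    exact sub_eq_zero.1 h3
  have h2 := hA V (Complex.I • V)
  rw [omega_apply, omega_apply] at h2
  have h3 : ∑ j, ((V j).re * ((Complex.I • V) j).im - (V j).im * ((Complex.I • V) j).re) =
      nsq V := by
    unfold nsq
    refine Finset.sum_congr rfl fun j _ => ?_
    simp [Complex.normSq_apply]
  have h4 : ∑ j, ((A V j).re * (A (Complex.I • V) j).im - (A V j).im * (A (Complex.I • V) j).re) =
      - nsq (A (Complex.I • V)) := by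
    unfold nsq
    rw [← Finset.sum_neg_distrib]
    refine Finset.sum_congr rfl fun j _ => ?_
    rw [h1 j]
    simp [Complex.normSq_apply]
    ring
  rw [h3, h4] at h2
  have h5 : nsq V = 0 := by
    have := nsq_nonneg V
    have := nsq_nonneg (A (Complex.I • V))
    linarith
  rw [nsq_eq] at h5
  have h6 : V = 0 := norm_eq_zero.1 (pow_eq_zero_iff (two_ne_zero) |>.1 h5)
  apply hv
  ext j
  rw [← hVv j, h6]
  rfl

lemma cmat_id : (cmat (ContinuousLinearMap.id ℝ (E n))).det = 1 := by
  have : cmat (ContinuousLinearMap.id ℝ (E n)) = 1 := by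
    ext i j
    simp only [cmat, Matrix.of_apply, ContinuousLinearMap.id_apply]
    by_cases h : i = j
    · subst h
      simp
      norm_num
    · simp [h, Matrix.one_apply_ne h]
  rw [this, Matrix.det_one]

/-- the determinant of the complex-linear part of the derivative of a twist -/
lemma cmat_twist {A : E n →L[ℝ] E n} {c : ℂ} {d : ℝ} {y : E n}
    (hA : ∀ v, A v = c • (v + (((d * (2 * RI y v) : ℝ) : ℂ) * Complex.I) • y)) :
    (cmat A).det = c ^ n * (1 + ((d * nsq y : ℝ) : ℂ) * Complex.I) := by
  have h1 : cmat A = c • (1 + Matrix.replicateCol Unit (fun i => y i) *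
      Matrix.replicateRow Unit (fun j => (d : ℂ) * Complex.I * (starRingEnd ℂ) (y j))) := by
    ext i j
    have e1 : RI y (EuclideanSpace.single j (1 : ℂ)) = (y j).re := by
      unfold RI
      rw [Finset.sum_eq_single j]
      · simp
      · intro k _ hk
        simp [hk]
      · simp
    have e2 : RI y (EuclideanSpace.single j Complex.I) = (y j).im := by
      unfold RI
      rw [Finset.sum_eq_single j]
      · simp
      · intro k _ hk
        simp [hk]
      · simp
    simp only [cmat, Matrix.of_apply, hA, e1, e2, Matrix.smul_apply, Matrix.add_apply,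
      Matrix.mul_apply, Matrix.replicateCol_apply, Matrix.replicateRow_apply, PiLp.smul_apply,
      PiLp.add_apply, smul_eq_mul, Finset.univ_unique, Finset.sum_singleton]
    have e3 : (starRingEnd ℂ) (y j) = ((y j).re : ℂ) - ((y j).im : ℂ) * Complex.I := by
      apply Complex.ext <;> simp
    rw [e3]
    by_cases h : i = j
    · subst h
      simp
      linear_combination (-(1/2 : ℂ) * c) * Complex.I_sq
    · simp [h, Matrix.one_apply_ne h]
      ring
  rw [h1, Matrix.det_smul, Matrix.det_one_add_replicateCol_mul_replicateRow, Fintype.card_fin]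
  congr 2
  simp only [dotProduct]
  unfold nsq
  rw [Finset.mul_sum]
  push_cast
  rw [Finset.sum_mul]
  refine Finset.sum_congr rfl fun j _ => ?_
  rw [Complex.normSq_eq_conj_mul_self]
  ring

end Pool.Agent.Y475.Sy
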