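import Pool.Agent.Y475.Sy.Glue

set_option autoImplicit false

open Set Filter Topology
open scoped ContDiff

namespace Pool.Agent.Y475.Sy

open Pool.Agent.Results.MP_2dff6e_gt.PuncturedPlane

variable {n m : ℕ}

/-- closed balls -/
def cb (p : Fin m → E n) (R : ℝ) (i : Fin m) : Set (E n) := Metric.closedBall (p i) R

/-- `R` is small for the points `p i` -/
structure Small (M : Set (E n)) (p : Fin m → E n) (R : ℝ) : Prop where
  pos : 0 < R
  notMem : ∀ i, p i ∉ M
  ball : ∀ i z, z ≠ p i → ‖z - p i‖ ≤ 2 * R → z ∈ M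
  disj : ∀ i j, i ≠ j → 2 * R < ‖p i - p j‖

lemma mem_cb {p : Fin m → E n} {R : ℝ} {i : Fin m} {z : E n} :
    z ∈ cb p R i ↔ ‖z - p i‖ ≤ R := by
  unfold cb; rw [Metric.mem_closedBall, dist_eq_norm]

lemma boxes {M : Set (E n)} {p : Fin m → E n} {R : ℝ} (h : Small M p R) : Boxes (cb p R) where
  closed _ := Metric.isClosed_closedBall
  disj i j hij z hi hj := by
    rw [mem_cb] at hi hj
    have h1 := h.disj i j hij
    have h2 : ‖p i - p j‖ ≤ ‖z - p j‖ + ‖z - p i‖ := by
      have : p i - p j = (z - p j) - (z - p i) := by abel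
      rw [this]; exact norm_sub_le _ _
    linarith

/-- twists with profile trivial near the points and off the balls -/
structure Prof (R a : ℝ) (α : Fin m → ℝ → ℝ) : Prop where
  smooth : ∀ i, ContDiff ℝ ∞ (α i)
  inn : ∀ i N, N < a → Complex.exp ((α i N : ℂ) * Complex.I) = 1
  out : ∀ i N, R ^ 2 < N → Complex.exp ((α i N : ℂ) * Complex.I) = 1

/-- the glued twist -/
noncomputable def tws (p : Fin m → E n) (α : Fin m → ℝ → ℝ) : E n → E n :=
  glue fun i => T (p i) (α i)

/-- annuli -/
def ann (p : Fin m → E n) (R a : ℝ) (i : Fin m) : Set (E n) :=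
  {z | a ≤ nsq (z - p i) ∧ nsq (z - p i) ≤ R ^ 2}

lemma adapted {M : Set (E n)} {p : Fin m → E n} {R a : ℝ} (h : Small M p R)
    {α : Fin m → ℝ → ℝ} (hα : Prof R a α) : Adapted (cb p R) (fun i => T (p i) (α i)) where
  off i z hz := by
    rw [mem_cb, not_le] at hz
    apply T_of_exp_eq_one
    apply hα.out
    rw [nsq_eq]
    have := h.pos
    nlinarith
  maps i z hz := by
    rw [mem_cb] at hz ⊢
    rw [norm_T]; exact hz

lemma T_mapsTo {M : Set (E n)} {p : Fin m → E n} {R a : ℝ} (h : Small M p R)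
    {α : Fin m → ℝ → ℝ} (hα : Prof R a α) (i : Fin m) : MapsTo (T (p i) (α i)) M M := by
  intro z hz
  by_cases hzB : z ∈ cb p R i
  · have hne : z ≠ p i := fun h' => h.notMem i (h' ▸ hz)
    refine h.ball i _ ?_ ?_
    · intro h'
      have h1 := norm_T (p i) (α i) z
      rw [h', sub_self, norm_zero] at h1
      exact hne (sub_eq_zero.1 (norm_eq_zero.1 h1.symm))
    · rw [norm_T]
      rw [mem_cb] at hzB
      have := h.pos
      linarith
  · rw [(adapted h hα).off i z hzB]; exact hz

lemma Prof.neg {R a : ℝ} {α : Fin m → ℝ → ℝ} (hα : Prof R a α) :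
    Prof R a (fun i N => - α i N) where
  smooth i := (hα.smooth i).neg
  inn i N hN := by
    have := hα.inn i N hN
    push_cast
    rw [neg_mul, Complex.exp_neg, this, inv_one]
  out i N hN := by
    have := hα.out i N hN
    push_cast
    rw [neg_mul, Complex.exp_neg, this, inv_one]

lemma T_neg (p : E n) (α : ℝ → ℝ) (z : E n) : T p α (T p (fun N => - α N) z) = z := by
  rw [T_T]
  have : (fun N => α N + - α N) = fun _ => (0 : ℝ) := by funext N; ring
  rw [this, T_zero]

lemma T_neg' (p : E n) (α : ℝ → ℝ) (z : E n) : T p (fun N => - α N) (T p α z) = z := by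
  rw [T_T]
  have : (fun N => - α N + α N) = fun _ => (0 : ℝ) := by funext N; ring
  rw [this, T_zero]

lemma tws_symp {M : Set (E n)} {p : Fin m → E n} {R a : ℝ} (h : Small M p R)
    {α : Fin m → ℝ → ℝ} (hα : Prof R a α) :
    IsSymplectomorphism M (omega n) (⋃ i, ann p R a i) (tws p α) := by
  refine glue_symp (boxes h) (adapted h hα) (adapted h hα.neg) (fun i => contDiff_T (hα.smooth i))
    (fun i => contDiff_T (hα.neg.smooth i)) (T_mapsTo h hα) (T_mapsTo h hα.neg)
    (fun i z => T_neg _ _ _) (fun i z => T_neg' _ _ _) (fun i z v w => ?_) (fun i z _ hz => ?_)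
  · exact omega_T (hα.smooth i) z v w
  · apply T_of_exp_eq_one
    by_cases h1 : a ≤ nsq (z - p i)
    · apply hα.out
      by_contra h2
      exact hz ⟨h1, not_lt.1 h2⟩
    · exact hα.inn _ _ (not_le.1 h1)

lemma continuous_nsq_sub (p : E n) : Continuous (fun z : E n => nsq (z - p)) := by
  have : (fun z : E n => nsq (z - p)) = fun z => ‖z - p‖ ^ 2 := by
    funext z; rw [nsq_eq]
  rw [this]; fun_prop

lemma ann_compact (p : Fin m → E n) (R a : ℝ) (i : Fin m) : IsCompact (ann p R a i) := by
  refine Metric.isCompact_of_isClosed_isBounded ?_ ?_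
  · exact (isClosed_le continuous_const (continuous_nsq_sub _)).inter
      (isClosed_le (continuous_nsq_sub _) continuous_const)
  · refine (Metric.isBounded_closedBall (x := p i) (r := |R|)).subset ?_
    intro z hz
    rw [Metric.mem_closedBall, dist_eq_norm]
    have h2 := hz.2
    rw [nsq_eq, ← sq_abs R] at h2
    exact abs_le_of_sq_le_sq' h2 (abs_nonneg R) |>.2

lemma ann_subset {M : Set (E n)} {p : Fin m → E n} {R a : ℝ} (h : Small M p R) (ha : 0 < a)
    (i : Fin m) : ann p R a i ⊆ M := by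
  intro z hz
  refine h.ball i z ?_ ?_
  · intro h'
    have h1 := hz.1
    rw [h', sub_self, nsq_eq] at h1
    simp at h1
    linarith
  · have h2 := hz.2
    rw [nsq_eq] at h2
    have h3 : ‖z - p i‖ ≤ R := abs_le_of_sq_le_sq' h2 h.pos.le |>.2
    have := h.pos
    linarith

lemma union_compact (p : Fin m → E n) (R a : ℝ) : IsCompact (⋃ i, ann p R a i) :=
  isCompact_iUnion fun i => ann_compact p R a i

lemma tws_mem_SympC {M : Set (E n)} {p : Fin m → E n} {R a : ℝ} (h : Small M p R) (ha : 0 < a)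
    {α : Fin m → ℝ → ℝ} (hα : Prof R a α) : tws p α ∈ SympC M (omega n) :=
  ⟨_, iUnion_subset fun i => ann_subset h ha i, union_compact p R a, tws_symp h hα⟩

lemma tws_mem_SympC0 {M : Set (E n)} {p : Fin m → E n} {R a : ℝ} (h : Small M p R) (ha : 0 < a)
    {α : Fin m → ℝ → ℝ} (hs : ∀ i, ContDiff ℝ ∞ (α i)) (hinn : ∀ i N, N < a → α i N = 0)
    (hout : ∀ i N, R ^ 2 < N → α i N = 0) : tws p α ∈ SympC0 M (omega n) := by
  have hp : ∀ t : ℝ, Prof R a (fun i N => t * α i N) := fun t =>
    ⟨fun i => contDiff_const.mul (hs i), fun i N hN => by simp [hinn i N hN],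
      fun i N hN => by simp [hout i N hN]⟩
  refine ⟨_, iUnion_subset fun i => ann_subset h ha i, union_compact p R a,
    fun t => tws p (fun i N => t * α i N), ?_, fun t _ => tws_symp h (hp t), ?_, ?_⟩
  · have : ContDiff ℝ ∞ (fun q : ℝ × E n => tws p (fun i N => q.1 * α i N) q.2) := by
      unfold tws glue
      refine contDiff_snd.add (ContDiff.sum fun i _ => ?_)
      exact (contDiff_T_param (hs i)).sub contDiff_snd
    exact this.contDiffOn
  · intro x _
    simp [tws, glue, T]
  · intro x _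
    simp [tws]

end Pool.Agent.Y475.Sy
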