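import Pool.Agent.Y475.Sy.Fam

set_option autoImplicit false

open Set Filter Topology
open scoped ContDiff

namespace Pool.Agent.Y475.Sy

open Pool.Agent.Results.MP_2dff6e_gt.PuncturedPlane

variable {n m : ℕ}

/-- the profiles of the twist `ψ k` -/
noncomputable def Ap (c : ℝ) (k : Fin m → ℤ) (i : Fin m) (N : ℝ) : ℝ := k i * prof (c * N)

/-- the profiles of the approximations -/
noncomputable def Aq (c : ℝ) (k : Fin m → ℤ) (j : ℕ) (i : Fin m) (N : ℝ) : ℝ :=
  k i * (prof (c * N) - prof ((j + 2) * (c * N)))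

lemma Ap_smooth (c : ℝ) (k : Fin m → ℤ) (i : Fin m) : ContDiff ℝ ∞ (Ap c k i) :=
  contDiff_const.mul (contDiff_prof.comp (contDiff_const.mul contDiff_id))

lemma Aq_smooth (c : ℝ) (k : Fin m → ℤ) (j : ℕ) (i : Fin m) : ContDiff ℝ ∞ (Aq c k j i) :=
  contDiff_const.mul ((contDiff_prof.comp (contDiff_const.mul contDiff_id)).sub
    (contDiff_prof.comp (contDiff_const.mul (contDiff_const.mul contDiff_id))))

lemma exp_two_pi (k : ℤ) : Complex.exp (((k * (2 * Real.pi) : ℝ) : ℂ) * Complex.I) = 1 := by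
  have := Complex.exp_int_mul_two_pi_mul_I k
  rw [← this]
  congr 1
  push_cast
  ring

lemma Ap_low {c : ℝ} {k : Fin m → ℤ} {i : Fin m} {N : ℝ} (h : c * N ≤ 1) : Ap c k i N = 0 := by
  unfold Ap; rw [prof_of_le h, mul_zero]

lemma Ap_high {c : ℝ} {k : Fin m → ℤ} {i : Fin m} {N : ℝ} (h : 2 ≤ c * N) :
    Ap c k i N = k i * (2 * Real.pi) := by
  unfold Ap; rw [prof_of_ge h]

section

variable {R c : ℝ}

lemma Ap_prof (hR : 0 < R) (hc : c = 2 / R ^ 2) (k : Fin m → ℤ) : Prof R (1 / c) (Ap c k) where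
  smooth := Ap_smooth c k
  inn i N hN := by
    have hc0 : 0 < c := by rw [hc]; positivity
    have : c * N ≤ 1 := by
      rw [lt_div_iff₀ hc0] at hN
      linarith
    rw [Ap_low this]; simp
  out i N hN := by
    have hR2 : 0 < R ^ 2 := by positivity
    have hc0 : 0 < c := by rw [hc]; positivity
    have h1 : c * R ^ 2 = 2 := by rw [hc]; field_simp
    have h2 : 2 ≤ c * N := by nlinarith
    rw [Ap_high h2]
    exact exp_two_pi _

lemma Aq_low (hR : 0 < R) (hc : c = 2 / R ^ 2) (k : Fin m → ℤ) (j : ℕ) (i : Fin m) (N : ℝ)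
    (hN : N < 1 / ((j + 2) * c)) : Aq c k j i N = 0 := by
  have hc0 : 0 < c := by rw [hc]; positivity
  have hj : (0 : ℝ) < (j : ℝ) + 2 := by positivity
  have h1 : (j + 2 : ℝ) * (c * N) ≤ 1 := by
    rw [lt_div_iff₀ (by positivity)] at hN
    nlinarith
  have h2 : c * N ≤ 1 := by
    by_cases h : c * N ≤ 0
    · linarith
    · have h := not_le.1 h
      have : (0 : ℝ) ≤ j := by positivity
      nlinarith
  unfold Aq
  rw [prof_of_le h1, prof_of_le h2]
  ring

lemma Aq_high (hR : 0 < R) (hc : c = 2 / R ^ 2) (k : Fin m → ℤ) (j : ℕ) (i : Fin m) (N : ℝ)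
    (hN : R ^ 2 < N) : Aq c k j i N = 0 := by
  have hR2 : 0 < R ^ 2 := by positivity
  have hc0 : 0 < c := by rw [hc]; positivity
  have h1 : c * R ^ 2 = 2 := by rw [hc]; field_simp
  have h2 : 2 ≤ c * N := by nlinarith
  have h3 : 2 ≤ (j + 2 : ℝ) * (c * N) := by
    have : (0 : ℝ) ≤ j := by positivity
    nlinarith
  unfold Aq
  rw [prof_of_ge h2, prof_of_ge h3]
  ring

end

lemma T_eq_of {p : E n} {c : ℝ} {k : Fin m → ℤ} {j : ℕ} {i : Fin m} {z : E n}
    (h : 2 ≤ (j + 2 : ℝ) * (c * nsq (z - p))) : T p (Aq c k j i) z = T p (Ap c k i) z := by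
  unfold T Aq Ap
  rw [prof_of_ge h]
  congr 2
  have h1 := exp_two_pi (k i)
  rw [mul_sub]
  push_cast at h1 ⊢
  rw [sub_mul, Complex.exp_sub, h1, div_one]

lemma tws_eq_of {p : Fin m → E n} {c : ℝ} {k : Fin m → ℤ} {j : ℕ} {z : E n}
    (h : ∀ i, 2 ≤ (j + 2 : ℝ) * (c * nsq (z - p i))) : tws p (Aq c k j) z = tws p (Ap c k) z := by
  unfold tws glue
  congr 1
  refine Finset.sum_congr rfl fun i _ => ?_
  change T (p i) (Aq c k j i) z - z = T (p i) (Ap c k i) z - z
  rw [T_eq_of (h i)]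

section

variable {M : Set (E n)} {p : Fin m → E n} {R c : ℝ}

lemma tws_zero (p : Fin m → E n) (c : ℝ) (z : E n) : tws p (Ap c 0) z = z := by
  have : ∀ i, T (p i) (Ap c (0 : Fin m → ℤ) i) z = z := by
    intro i
    have : Ap c (0 : Fin m → ℤ) i = fun _ => 0 := by
      funext N; simp [Ap]
    rw [this, T_zero]
  unfold tws glue
  simp [this]

lemma tws_add (h : Small M p R) (hc : c = 2 / R ^ 2) (k l : Fin m → ℤ) (z : E n) :
    tws p (Ap c k) (tws p (Ap c l) z) = tws p (Ap c (k + l)) z := by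
  unfold tws
  rw [glue_glue (boxes h) (adapted h (Ap_prof h.pos hc k)) (adapted h (Ap_prof h.pos hc l))]
  congr 1
  funext i x
  rw [T_T]
  congr 1
  funext N
  simp [Ap]
  ring

lemma Ap_mem (h : Small M p R) (hc : c = 2 / R ^ 2) (k : Fin m → ℤ) :
    tws p (Ap c k) ∈ SympC M (omega n) := by
  have hR := h.pos
  have hc0 : 0 < c := by rw [hc]; positivity
  exact tws_mem_SympC h (by positivity) (Ap_prof h.pos hc k)

lemma Aq_mem (h : Small M p R) (hc : c = 2 / R ^ 2) (k : Fin m → ℤ) (j : ℕ) :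
    tws p (Aq c k j) ∈ SympC M (omega n) ∧ tws p (Aq c k j) ∈ SympC0 M (omega n) := by
  have hR := h.pos
  have hc0 : 0 < c := by rw [hc]; positivity
  have ha : 0 < 1 / (((j : ℝ) + 2) * c) := by positivity
  refine ⟨tws_mem_SympC h ha ⟨Aq_smooth c k j, fun i N hN => ?_, fun i N hN => ?_⟩,
    tws_mem_SympC0 h ha (Aq_smooth c k j) (fun i N hN => Aq_low hR hc k j i N hN)
      (fun i N hN => Aq_high hR hc k j i N hN)⟩
  · rw [Aq_low hR hc k j i N hN]; simp
  · rw [Aq_high hR hc k j i N hN]; simp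

lemma id_mem_SympC0 {f : E n → E n} (hf : ∀ z ∈ M, f z = z) :
    f ∈ SympC0 M (omega n) := by
  refine ⟨∅, empty_subset _, isCompact_empty, fun _ z => z, contDiff_snd.contDiffOn,
    fun t _ => ?_, fun _ _ => rfl, fun x hx => (hf x hx).symm⟩
  refine ⟨contDiff_id.contDiffOn, fun z hz => hz, ⟨fun z => z, contDiff_id.contDiffOn,
    fun z hz => hz, fun _ _ => ⟨rfl, rfl⟩⟩, fun x _ v w => ?_, fun _ _ _ => rfl⟩
  simp

lemma tendsto_uniform (h : Small M p R) (hc : c = 2 / R ^ 2) (k : Fin m → ℤ) :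
    TendstoUniformlyOn (fun j => tws p (Aq c k j)) (tws p (Ap c k)) atTop M := by
  have hR := h.pos
  have hc0 : 0 < c := by rw [hc]; positivity
  rw [Metric.tendstoUniformlyOn_iff]
  intro ε hε
  obtain ⟨N, hN⟩ := exists_nat_gt (8 / (c * ε ^ 2))
  filter_upwards [eventually_ge_atTop N] with j hj z _
  have hj' : (N : ℝ) ≤ j := by exact_mod_cast hj
  have hj0 : (0 : ℝ) < (j : ℝ) + 2 := by positivity
  have hpos : (0 : ℝ) < c * ε ^ 2 := by positivity
  have hAq : Adapted (cb p R) (fun i => T (p i) (Aq c k j i)) := by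
    refine adapted (a := 1 / (((j : ℝ) + 2) * c)) h ⟨Aq_smooth c k j, fun i N hN => ?_,
      fun i N hN => ?_⟩
    · rw [Aq_low hR hc k j i N hN]; simp
    · rw [Aq_high hR hc k j i N hN]; simp
  have hAp := adapted h (Ap_prof h.pos hc k)
  rcases glue_cases (boxes h) z with ⟨i, hi, hji⟩ | hoff
  · unfold tws
    rw [glue_mem (boxes h) hAp hji, glue_mem (boxes h) hAq hji]
    by_cases h1 : 2 ≤ (j + 2 : ℝ) * (c * nsq (z - p i))
    · rw [T_eq_of h1, dist_self]
      exact hε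
    · have h2 : (j + 2 : ℝ) * (c * nsq (z - p i)) < 2 := not_le.1 h1
      have h3 : dist (T (p i) (Ap c k i) z) (T (p i) (Aq c k j i) z) ≤ 2 * ‖z - p i‖ := by
        rw [dist_eq_norm]
        have e : T (p i) (Ap c k i) z - T (p i) (Aq c k j i) z =
          (T (p i) (Ap c k i) z - p i) - (T (p i) (Aq c k j i) z - p i) := by abel
        rw [e]
        refine (norm_sub_le _ _).trans ?_
        rw [norm_T, norm_T]
        linarith
      refine h3.trans_lt ?_
      rw [nsq_eq] at h2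
      have h4 : 8 < (c * ε ^ 2) * ((j : ℝ) + 2) := by
        rw [div_lt_iff₀ hpos] at hN
        nlinarith
      have h5 : (2 * ‖z - p i‖) ^ 2 < ε ^ 2 := by
        by_contra h6
        have h6 := not_lt.mp h6
        have h7 : c * ((j : ℝ) + 2) * ε ^ 2 ≤ c * ((j : ℝ) + 2) * (2 * ‖z - p i‖) ^ 2 :=
          mul_le_mul_of_nonneg_left h6 (by positivity)
        nlinarith
      exact lt_of_pow_lt_pow_left₀ 2 hε.le h5
  · unfold tws
    rw [glue_off hAp hoff, glue_off hAq hoff, dist_self]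
    exact hε

lemma eventually_eq (h : Small M p R) (hc : c = 2 / R ^ 2) (k : Fin m → ℤ) {L : Set (E n)}
    (hL : L ⊆ M) (hLc : IsCompact L) :
    ∀ᶠ j : ℕ in atTop, ∀ z ∈ L, tws p (Aq c k j) z = tws p (Ap c k) z := by
  have hR := h.pos
  have hc0 : 0 < c := by rw [hc]; positivity
  have h1 : ∀ i, ∀ᶠ j : ℕ in atTop, ∀ z ∈ L, 2 ≤ (j + 2 : ℝ) * (c * nsq (z - p i)) := by
    intro i
    have hopen : IsOpen (Lᶜ : Set (E n)) := hLc.isClosed.isOpen_compl
    have hpi : p i ∈ Lᶜ := fun h' => h.notMem i (hL h')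
    obtain ⟨ε, hε, hball⟩ := Metric.isOpen_iff.1 hopen _ hpi
    obtain ⟨N, hN⟩ := exists_nat_gt (2 / (c * ε ^ 2))
    filter_upwards [eventually_ge_atTop N] with j hj z hz
    have hj' : (N : ℝ) ≤ j := by exact_mod_cast hj
    have h3 : ε ≤ ‖z - p i‖ := by
      by_contra hcon
      have : z ∈ Metric.ball (p i) ε := by
        rw [Metric.mem_ball, dist_eq_norm]
        exact not_le.1 hcon
      exact hball this hz
    rw [nsq_eq]
    rw [div_lt_iff₀ (by positivity)] at hN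
    have h4 : ε ^ 2 ≤ ‖z - p i‖ ^ 2 := by
      have := norm_nonneg (z - p i)
      nlinarith
    have h5 : c * ε ^ 2 ≤ c * ‖z - p i‖ ^ 2 := mul_le_mul_of_nonneg_left h4 hc0.le
    have h6 : 0 < c * ε ^ 2 := by positivity
    have h7 : (0 : ℝ) ≤ N := by positivity
    nlinarith
  filter_upwards [Filter.eventually_all.2 h1] with j hj z hz
  exact tws_eq_of fun i => hj i z hz

end

end Pool.Agent.Y475.Sy
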