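import Pool.Agent.Y475.Sy.Obs

set_option autoImplicit false

open Set Filter Topology
open scoped ContDiff

namespace Pool.Agent.Y475.Sy

open Pool.Agent.Results.MP_2dff6e_gt.PuncturedPlane

variable {n m : ℕ}

/-- gluing of maps with disjoint supports -/
noncomputable def glue (f : Fin m → E n → E n) (z : E n) : E n := z + ∑ i, (f i z - z)

/-- disjoint closed sets `B i`, and maps `f i` of `B i` which are the identity off `B i` -/
structure Adapted (B : Fin m → Set (E n)) (f : Fin m → E n → E n) : Prop where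
  off : ∀ i z, z ∉ B i → f i z = z
  maps : ∀ i, MapsTo (f i) (B i) (B i)

structure Boxes (B : Fin m → Set (E n)) : Prop where
  closed : ∀ i, IsClosed (B i)
  disj : ∀ i j, i ≠ j → ∀ z, z ∈ B i → z ∉ B j

lemma glue_mem {B : Fin m → Set (E n)} (hB : Boxes B) {f : Fin m → E n → E n}
    (hf : Adapted B f) {i : Fin m} {z : E n} (hz : ∀ j, j ≠ i → z ∉ B j) : glue f z = f i z := by
  unfold glue
  rw [Finset.sum_eq_single i]
  · abel
  · intro j _ hj
    rw [hf.off j z (hz j hj), sub_self]
  · simp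

lemma glue_off {B : Fin m → Set (E n)} {f : Fin m → E n → E n}
    (hf : Adapted B f) {z : E n} (hz : ∀ j, z ∉ B j) : glue f z = z := by
  unfold glue
  rw [Finset.sum_eq_zero]
  · simp
  · intro j _
    rw [hf.off j z (hz j), sub_self]

lemma glue_cases {B : Fin m → Set (E n)} (hB : Boxes B) (z : E n) :
    (∃ i, z ∈ B i ∧ ∀ j, j ≠ i → z ∉ B j) ∨ ∀ j, z ∉ B j := by
  by_cases h : ∃ i, z ∈ B i
  · obtain ⟨i, hi⟩ := h
    exact Or.inl ⟨i, hi, fun j hj => hB.disj i j (Ne.symm hj) z hi⟩
  · exact Or.inr (not_exists.1 h)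

lemma glue_glue {B : Fin m → Set (E n)} (hB : Boxes B) {f g : Fin m → E n → E n}
    (hf : Adapted B f) (hg : Adapted B g) (z : E n) :
    glue f (glue g z) = glue (fun i x => f i (g i x)) z := by
  have hfg : Adapted B (fun i x => f i (g i x)) :=
    ⟨fun i z hz => by
      rw [hg.off i z hz, hf.off i z hz],
      fun i => (hf.maps i).comp (hg.maps i)⟩
  rcases glue_cases hB z with ⟨i, hi, hj⟩ | h
  · rw [glue_mem hB hg hj, glue_mem hB hfg hj, glue_mem hB hf]
    intro j hji
    exact hB.disj i j (Ne.symm hji) _ (hg.maps i hi)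
  · rw [glue_off hg h, glue_off hf h, glue_off hfg h]

/-- near a point which is outside all `B j`, `j ≠ i`, the glued map is `f i` -/
lemma glue_eventually {B : Fin m → Set (E n)} (hB : Boxes B) {f : Fin m → E n → E n}
    (hf : Adapted B f) {i : Fin m} {z : E n} (hz : ∀ j, j ≠ i → z ∉ B j) :
    glue f =ᶠ[𝓝 z] f i := by
  have h : ∀ᶠ x in 𝓝 z, ∀ j, j ≠ i → x ∉ B j := by
    rw [Filter.eventually_all]
    intro j
    by_cases hj : j = i
    · exact Filter.Eventually.of_forall fun x h => absurd hj h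
    · filter_upwards [(hB.closed j).isOpen_compl.mem_nhds (hz j hj)] with x hx _
      exact hx
  filter_upwards [h] with x hx
  exact glue_mem hB hf hx

lemma glue_eventually_off {B : Fin m → Set (E n)} (hB : Boxes B) {f : Fin m → E n → E n}
    (hf : Adapted B f) {z : E n} (hz : ∀ j, z ∉ B j) :
    glue f =ᶠ[𝓝 z] fun x => x := by
  have h : ∀ᶠ x in 𝓝 z, ∀ j, x ∉ B j := by
    rw [Filter.eventually_all]
    intro j
    filter_upwards [(hB.closed j).isOpen_compl.mem_nhds (hz j)] with x hx
    exact hx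
  filter_upwards [h] with x hx
  exact glue_off hf hx

/-- the glued map is a symplectomorphism -/
lemma glue_symp {B : Fin m → Set (E n)} (hB : Boxes B) {M : Set (E n)}
    {f g : Fin m → E n → E n} (hf : Adapted B f) (hg : Adapted B g) {K : Fin m → Set (E n)}
    (hfs : ∀ i, ContDiff ℝ ∞ (f i)) (hgs : ∀ i, ContDiff ℝ ∞ (g i))
    (hfM : ∀ i, MapsTo (f i) M M) (hgM : ∀ i, MapsTo (g i) M M)
    (hfg : ∀ i z, f i (g i z) = z) (hgf : ∀ i z, g i (f i z) = z)
    (hsy : ∀ i z v w, omega n 0 (fderiv ℝ (f i) z v) (fderiv ℝ (f i) z w) = omega n 0 v w)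
    (hK : ∀ i, ∀ z ∈ M, z ∉ K i → f i z = z) :
    IsSymplectomorphism M (omega n) (⋃ i, K i) (glue f) := by
  have hsm : ∀ {f : Fin m → E n → E n}, (∀ i, ContDiff ℝ ∞ (f i)) → ContDiff ℝ ∞ (glue f) := by
    intro f hf
    unfold glue
    exact contDiff_id.add (ContDiff.sum fun i _ => (hf i).sub contDiff_id)
  have hmt : ∀ {f : Fin m → E n → E n}, Adapted B f → (∀ i, MapsTo (f i) M M) →
      MapsTo (glue f) M M := by
    intro f hf hfM z hz
    rcases glue_cases hB z with ⟨i, hi, hj⟩ | h
    · rw [glue_mem hB hf hj]; exact hfM i hz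
    · rw [glue_off hf h]; exact hz
  have hid : ∀ z : E n, glue (fun (_ : Fin m) (x : E n) => x) z = z := by
    intro z; simp [glue]
  refine ⟨(hsm hfs).contDiffOn, hmt hf hfM, ⟨glue g, (hsm hgs).contDiffOn, hmt hg hgM, ?_⟩, ?_, ?_⟩
  · intro z _
    constructor
    · rw [glue_glue hB hg hf]
      have : (fun (i : Fin m) (x : E n) => g i (f i x)) = fun _ x => x := by
        funext i x; exact hgf i x
      rw [this, hid]
    · rw [glue_glue hB hf hg]
      have : (fun (i : Fin m) (x : E n) => f i (g i x)) = fun _ x => x := by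
        funext i x; exact hfg i x
      rw [this, hid]
  · intro z _ v w
    rcases glue_cases hB z with ⟨i, hi, hj⟩ | h
    · rw [(glue_eventually hB hf hj).fderiv_eq]
      exact hsy i z v w
    · rw [(glue_eventually_off hB hf h).fderiv_eq]
      simp [omega, form]
  · intro z hz hzK
    have hzK' : ∀ i, z ∉ K i := fun i hi => hzK (mem_iUnion.2 ⟨i, hi⟩)
    unfold glue
    rw [Finset.sum_eq_zero]
    · simp
    · intro i _
      rw [hK i z hz (hzK' i), sub_self]

end Pool.Agent.Y475.Sy
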