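import Pool.Agent.Y475.Sy.Cpart

set_option autoImplicit false

open Set Filter Topology
open scoped ContDiff

namespace Pool.Agent.Y475.Sy

open Pool.Agent.Results.MP_2dff6e_gt.PuncturedPlane

variable {n : ℕ}

/-- The obstruction: the winding number of the determinant of the complex-linear part of the
derivative along a path whose ends are fixed. -/
theorem obstruct {M : Set (E n)} (hM : IsOpen M) {K : Set (E n)} (hK : IsCompact K)
    {Φ : ℝ → E n → E n}
    (hΦ : ContDiffOn ℝ ∞ (fun p : ℝ × E n => Φ p.1 p.2) (Icc (0 : ℝ) 1 ×ˢ M))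
    (hS : ∀ t ∈ Icc (0 : ℝ) 1, IsSymplectomorphism M (omega n) K (Φ t))
    (h0 : ∀ x ∈ M, Φ 0 x = x) {ψ : E n → E n} (h1 : ∀ x ∈ M, Φ 1 x = ψ x)
    {γ : unitInterval → E n} (hγ : Continuous γ) (hγM : ∀ s, γ s ∈ M)
    (e0 : γ 0 ∉ K) (e1 : γ 1 ∉ K) {L : unitInterval → ℂ} (hL : Continuous L)
    (hexp : ∀ s, Complex.exp (L s) = (cmat (fderiv ℝ ψ (γ s))).det) (hL0 : L 0 = 0) :
    L 1 = 0 := by
  set S : Set (ℝ × E n) := Icc (0 : ℝ) 1 ×ˢ M with hSdef
  set F : ℝ × E n → E n := fun p => Φ p.1 p.2 with hF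
  have hU : UniqueDiffOn ℝ S := (uniqueDiffOn_Icc zero_lt_one).prod hM.uniqueDiffOn
  have hcd : ContinuousOn (fderivWithin ℝ F S) S := hΦ.continuousOn_fderivWithin hU (by simp)
  have hder : ∀ t ∈ Icc (0 : ℝ) 1, ∀ x ∈ M, HasFDerivAt (Φ t)
      ((fderivWithin ℝ F S (t, x)).comp (ContinuousLinearMap.inr ℝ ℝ (E n))) x := by
    intro t ht x hx
    have hq : (t, x) ∈ S := ⟨ht, hx⟩
    have h2 : HasFDerivWithinAt F (fderivWithin ℝ F S (t, x)) S (t, x) :=
      ((hΦ.differentiableOn (by simp)) _ hq).hasFDerivWithinAt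
    have h3 : HasFDerivWithinAt (fun x' : E n => (t, x')) (ContinuousLinearMap.inr ℝ ℝ (E n)) M x :=
      (hasFDerivAt_prodMk_right t x).hasFDerivWithinAt
    have h4 := HasFDerivWithinAt.comp x h2 h3 (fun x' hx' => ⟨ht, hx'⟩)
    exact h4.hasFDerivAt (hM.mem_nhds hx)
  have hnhds : ∀ s, M ∈ 𝓝 (γ s) := fun s => hM.mem_nhds (hγM s)
  -- the family of derivatives
  have hAc : Continuous (fun q : unitInterval × unitInterval =>
      ((fderivWithin ℝ F S ((q.1 : ℝ), γ q.2)).comp (ContinuousLinearMap.inr ℝ ℝ (E n)))) := by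
    have h2 : Continuous (fun q : unitInterval × unitInterval =>
        (((q.1 : ℝ), γ q.2) : ℝ × E n)) :=
      (continuous_subtype_val.comp continuous_fst).prodMk (hγ.comp continuous_snd)
    have h3 : Continuous (fun q : unitInterval × unitInterval =>
        fderivWithin ℝ F S ((q.1 : ℝ), γ q.2)) :=
      hcd.comp_continuous h2 (fun q => ⟨q.1.2, hγM q.2⟩)
    exact h3.clm_comp continuous_const
  have hAc2 : Continuous (fun q : unitInterval × unitInterval =>
      (cmat (fderiv ℝ (Φ q.1) (γ q.2))).det) := by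
    have h2 := continuous_cmat.comp hAc
    refine h2.congr fun q => ?_
    simp only [Function.comp]
    rw [(hder q.1 q.1.2 _ (hγM q.2)).fderiv]
  have hne : ∀ q : unitInterval × unitInterval, (cmat (fderiv ℝ (Φ q.1) (γ q.2))).det ≠ 0 := by
    intro q
    refine cmat_det_ne_zero fun v w => ?_
    exact (hS q.1 q.1.2).symplectic _ (hγM q.2) v w
  let G : C(unitInterval × unitInterval, {z : ℂ // z ≠ 0}) :=
    ⟨fun q => ⟨(cmat (fderiv ℝ (Φ q.1) (γ q.2))).det, hne q⟩, hAc2.subtype_mk _⟩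
  let γ₀ : C(unitInterval, {z : ℂ // z ≠ 0}) := G.comp ⟨fun s => (0, s), by fun_prop⟩
  let γ₁ : C(unitInterval, {z : ℂ // z ≠ 0}) := G.comp ⟨fun s => (1, s), by fun_prop⟩
  have hone : ∀ {f : E n → E n} {x : E n}, (∀ᶠ z in 𝓝 x, f z = z) → (cmat (fderiv ℝ f x)).det = 1 := by
    intro f x hf
    have : fderiv ℝ f x = fderiv ℝ (fun z => z) x := Filter.EventuallyEq.fderiv_eq hf
    rw [this]
    have h2 : fderiv ℝ (fun z : E n => z) x = ContinuousLinearMap.id ℝ (E n) := fderiv_fun_id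
    rw [h2, cmat_id]
  have hfix : ∀ t : unitInterval, ∀ s ∈ ({0, 1} : Set unitInterval),
      (cmat (fderiv ℝ (Φ t) (γ s))).det = 1 := by
    intro t s hs
    have hsK : γ s ∉ K := by
      rcases hs with hs | hs
      · rw [hs]; exact e0
      · have : s = 1 := hs
        rw [this]; exact e1
    refine hone ?_
    filter_upwards [hnhds s, hK.isClosed.isOpen_compl.mem_nhds hsK] with z hz hzK
    exact (hS t t.2).support z hz hzK
  have hhom : γ₀.HomotopicRel γ₁ {0, 1} := by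
    refine ⟨⟨⟨G, fun s => rfl, fun s => rfl⟩, ?_⟩⟩
    intro t s hs
    apply Subtype.ext
    change (cmat (fderiv ℝ (Φ t) (γ s))).det = (cmat (fderiv ℝ (Φ (0 : unitInterval)) (γ s))).det
    rw [hfix t s hs, hfix 0 s hs]
  have hγ₀ : ∀ s, ((γ₀ s : {z : ℂ // z ≠ 0}) : ℂ) = 1 := by
    intro s
    refine hone ?_
    filter_upwards [hnhds s] with z hz
    exact h0 z hz
  have hγ₁ : ∀ s, ((γ₁ s : {z : ℂ // z ≠ 0}) : ℂ) = Complex.exp (L s) := by
    intro s
    rw [hexp]
    change (cmat (fderiv ℝ (Φ ((1 : unitInterval) : ℝ)) (γ s))).det = _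
    congr 2
    apply Filter.EventuallyEq.fderiv_eq
    filter_upwards [hnhds s] with z hz
    exact h1 z hz
  have hstart₀ : γ₀ 0 = ⟨Complex.exp 0, Complex.exp_ne_zero 0⟩ := by
    apply Subtype.ext
    rw [hγ₀]
    exact Complex.exp_zero.symm
  have hstart₁ : γ₁ 0 = ⟨Complex.exp 0, Complex.exp_ne_zero 0⟩ := by
    apply Subtype.ext
    rw [hγ₁, hL0]
  have key₀ := lift_eq hstart₀ (continuous_const (y := (0 : ℂ)))
    (fun s => by rw [hγ₀, Complex.exp_zero]) rfl
  have key₁ := lift_eq hstart₁ hL (fun s => (hγ₁ s).symm) hL0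
  have hend := Complex.isCoveringMap_exp.liftPath_apply_one_eq_of_homotopicRel hhom 0 hstart₀
    hstart₁
  rw [← key₀, ← key₁] at hend
  exact hend.symm

end Pool.Agent.Y475.Sy
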