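import Pool.Agent.Y475.Sy.Ray

set_option autoImplicit false

open Set Filter Topology
open scoped ContDiff

namespace Pool.Agent.Y475.Sy

open Pool.Agent.Results.MP_2dff6e_gt.PuncturedPlane

variable {n m : ℕ}

/-- lines are small: there is a unit vector not proportional to any difference of the points -/
lemma exists_dir (hn : 0 < n) {p : Fin m → E n} (hp : Function.Injective p) :
    ∃ u : E n, ‖u‖ = 1 ∧ ∀ i j, i ≠ j → ∀ s : ℝ, p i + s • u ≠ p j := by
  classical
  let S : Finset (Subspace ℝ (E n)) :=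
    insert ⊥ (Finset.univ.image fun q : Fin m × Fin m => Submodule.span ℝ {p q.1 - p q.2})
  have hfr : 2 ≤ Module.finrank ℝ (E n) := by
    have h1 : Module.finrank ℝ (E n) = 2 * Module.finrank ℂ (E n) :=
      finrank_real_of_complex (E n)
    rw [h1, finrank_euclideanSpace_fin]
    omega
  have htop : (⊤ : Subspace ℝ (E n)) ∉ S := by
    intro h
    rcases Finset.mem_insert.1 h with h | h
    · have h2 : Module.finrank ℝ (⊤ : Subspace ℝ (E n)) = 0 := by rw [h]; simp
      rw [finrank_top] at h2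
      omega
    · obtain ⟨q, _, hq⟩ := Finset.mem_image.1 h
      have h2 : Module.finrank ℝ (⊤ : Subspace ℝ (E n)) ≤ 1 := by
        rw [← hq]
        have := finrank_span_le_card (R := ℝ) ({p q.1 - p q.2} : Set (E n))
        simpa using this
      rw [finrank_top] at h2
      omega
  have hne := Subspace.biUnion_ne_univ_of_top_notMem htop
  obtain ⟨v, hv⟩ := (Set.ne_univ_iff_exists_notMem _).1 hne
  have hv' : ∀ V ∈ S, v ∉ V := by
    intro V hV hvV
    exact hv (mem_biUnion hV hvV)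
  have hv0 : v ≠ 0 := by
    intro h
    exact hv' ⊥ (Finset.mem_insert_self _ _) (by simp [h])
  have hvn : ‖v‖ ≠ 0 := norm_ne_zero_iff.2 hv0
  refine ⟨(‖v‖⁻¹ : ℝ) • v, ?_, ?_⟩
  · rw [norm_smul, norm_inv, norm_norm, inv_mul_cancel₀ hvn]
  · intro i j hij s hs
    have h1 : (s * ‖v‖⁻¹) • v = p j - p i := by
      rw [← hs, smul_smul]; abel
    have h2 : s * ‖v‖⁻¹ ≠ 0 := by
      intro h
      rw [h, zero_smul] at h1
      exact hij (hp (sub_eq_zero.1 h1.symm)).symm
    refine hv' (Submodule.span ℝ {p j - p i}) ?_ ?_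
    · exact Finset.mem_insert_of_mem (Finset.mem_image.2 ⟨(j, i), Finset.mem_univ _, rfl⟩)
    · rw [Submodule.mem_span_singleton]
      refine ⟨(s * ‖v‖⁻¹)⁻¹, ?_⟩
      rw [← h1, smul_smul, inv_mul_cancel₀ h2, one_smul]

lemma exists_small {M : Set (E n)} (hn : 0 < n) {p : Fin m → E n} (hp : Function.Injective p)
    (hpM : ∀ i, p i ∉ M ∧ ∃ ρ > 0, Metric.ball (p i) ρ \ {p i} ⊆ M) :
    ∃ (R : ℝ) (u : E n), Small M p R ∧ Dir p R u := by
  obtain ⟨u, hu, hdir⟩ := exists_dir hn hp
  have e1 : ∀ᶠ R : ℝ in 𝓝[>] 0, ∀ i z, z ≠ p i → ‖z - p i‖ ≤ 2 * R → z ∈ M := by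
    rw [Filter.eventually_all]
    intro i
    obtain ⟨ρ, hρ, hball⟩ := (hpM i).2
    have h1 : ∀ᶠ R : ℝ in 𝓝[>] 0, R < ρ / 2 :=
      mem_nhdsWithin_of_mem_nhds (gt_mem_nhds (by positivity))
    filter_upwards [h1] with R hR z hz hzR
    refine hball ⟨?_, hz⟩
    rw [Metric.mem_ball, dist_eq_norm]
    linarith
  have e2 : ∀ᶠ R : ℝ in 𝓝[>] 0, ∀ i j, i ≠ j → 2 * R < ‖p i - p j‖ := by
    rw [Filter.eventually_all]
    intro i
    rw [Filter.eventually_all]
    intro j
    by_cases hij : i = j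
    · exact Filter.Eventually.of_forall fun R h => absurd hij h
    · have hpos : 0 < ‖p i - p j‖ := norm_pos_iff.2 (sub_ne_zero.2 fun h => hij (hp h))
      have h1 : ∀ᶠ R : ℝ in 𝓝[>] 0, R < ‖p i - p j‖ / 2 :=
        mem_nhdsWithin_of_mem_nhds (gt_mem_nhds (by positivity))
      filter_upwards [h1] with R hR _
      linarith
  have e3 : ∀ᶠ R : ℝ in 𝓝[>] 0, ∀ i j, i ≠ j → ∀ s : ℝ, R < ‖p i + s • u - p j‖ := by
    rw [Filter.eventually_all]
    intro i
    rw [Filter.eventually_all]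
    intro j
    by_cases hij : i = j
    · exact Filter.Eventually.of_forall fun R h => absurd hij h
    · have hcl : IsClosed ((Submodule.span ℝ {u} : Submodule ℝ (E n)) : Set (E n)) :=
        Submodule.closed_of_finiteDimensional _
      have hnot : p j - p i ∉ ((Submodule.span ℝ {u} : Submodule ℝ (E n)) : Set (E n)) := by
        intro h
        rw [SetLike.mem_coe, Submodule.mem_span_singleton] at h
        obtain ⟨s, hs⟩ := h
        exact hdir i j hij s (by rw [hs]; abel)
      have hpos := (hcl.notMem_iff_infDist_pos ⟨0, Submodule.zero_mem _⟩).1 hnot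
      have h1 : ∀ᶠ R : ℝ in 𝓝[>] 0, R < Metric.infDist (p j - p i)
          ((Submodule.span ℝ {u} : Submodule ℝ (E n)) : Set (E n)) :=
        mem_nhdsWithin_of_mem_nhds (gt_mem_nhds hpos)
      filter_upwards [h1] with R hR _ s
      refine hR.trans_le ?_
      have h2 : Metric.infDist (p j - p i)
          ((Submodule.span ℝ {u} : Submodule ℝ (E n)) : Set (E n)) ≤ dist (p j - p i) (s • u) :=
        Metric.infDist_le_dist_of_mem (Submodule.smul_mem _ _ (Submodule.mem_span_singleton_self u))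
      refine h2.trans (le_of_eq ?_)
      rw [dist_comm, dist_eq_norm]
      congr 1
      abel
  have e4 : ∀ᶠ R : ℝ in 𝓝[>] 0, 0 < R := eventually_mem_nhdsWithin
  obtain ⟨R, h1, h2, h3, h4⟩ := (e1.and (e2.and (e3.and e4))).exists
  exact ⟨R, u, ⟨h4, fun i => (hpM i).1, h1, h2⟩, ⟨hu, h3⟩⟩

end Pool.Agent.Y475.Sy
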