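import Pool.Agent.Y475.Sy.Fin

set_option autoImplicit false

open Set Filter Topology
open scoped ContDiff

namespace Pool.Agent.Y475.Sy

open Pool.Agent.Results.MP_2dff6e_gt.PuncturedPlane

variable {n m : ℕ}

/-- a ray which starts in `M` can be followed in `M` until it is off the compact set `K ⊆ M` -/
lemma exit_ray {M K : Set (E n)} (hM : IsOpen M) (hK : IsCompact K) (hKM : K ⊆ M)
    {g : ℝ → E n} (hg : Continuous g) (hinf : ∀ C : ℝ, ∃ s, C ≤ s ∧ g s ∉ K) {b0 : ℝ}
    (h0 : g b0 ∈ M) : ∃ b, b0 ≤ b ∧ g b ∉ K ∧ ∀ s, b0 ≤ s → s ≤ b → g s ∈ M := by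
  set S : Set ℝ := {s | b0 ≤ s ∧ g s ∉ K} with hS
  have hne : S.Nonempty := by
    obtain ⟨s, h1, h2⟩ := hinf b0
    exact ⟨s, h1, h2⟩
  have hbd : BddBelow S := ⟨b0, fun s hs => hs.1⟩
  set b1 := sInf S with hb1
  have hb01 : b0 ≤ b1 := le_csInf hne fun s hs => hs.1
  have hin : ∀ s, b0 ≤ s → s < b1 → g s ∈ K := by
    intro s h1 h2
    by_contra h3
    exact absurd (csInf_le hbd (⟨h1, h3⟩ : s ∈ S)) (not_le.2 h2)
  have hb1M : g b1 ∈ M := by
    by_contra h
    have hK1 : g b1 ∈ Kᶜ := fun h' => h (hKM h')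
    have hlt : b0 < b1 := by
      rcases hb01.lt_or_eq with h' | h'
      · exact h'
      · exact absurd (h' ▸ h0) h
    have hev : ∀ᶠ s in 𝓝 b1, g s ∈ Kᶜ :=
      hg.continuousAt.eventually (hK.isClosed.isOpen_compl.mem_nhds hK1)
    obtain ⟨ε, hε, hball⟩ := Metric.eventually_nhds_iff.1 hev
    have h4 : max b0 (b1 - ε / 2) < b1 := max_lt hlt (by linarith)
    refine hball (y := max b0 (b1 - ε / 2)) ?_ (hin _ (le_max_left _ _) h4)
    rw [Real.dist_eq, abs_lt]
    constructor
    · have := le_max_right b0 (b1 - ε / 2)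
      linarith
    · linarith
  have hev : ∀ᶠ s in 𝓝 b1, g s ∈ M := hg.continuousAt.eventually (hM.mem_nhds hb1M)
  obtain ⟨ε, hε, hball⟩ := Metric.eventually_nhds_iff.1 hev
  obtain ⟨s, hs, hs1⟩ := exists_lt_of_csInf_lt hne (show sInf S < b1 + ε by rw [← hb1]; linarith)
  refine ⟨s, hs.1, hs.2, fun t ht1 ht2 => ?_⟩
  by_cases h : t < b1
  · exact hKM (hin t ht1 h)
  · refine hball ?_
    rw [Real.dist_eq, abs_lt]
    have := not_lt.1 h
    constructor <;> linarith

/-- `u` is a unit vector whose lines from the `p i` stay away from the other points -/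
structure Dir (p : Fin m → E n) (R : ℝ) (u : E n) : Prop where
  norm : ‖u‖ = 1
  away : ∀ i j, i ≠ j → ∀ s : ℝ, R < ‖p i + s • u - p j‖

/-- the twists are not isotopic to the identity -/
theorem not_isotopic {M : Set (E n)} (hM : IsOpen M) (hn : 0 < n) {p : Fin m → E n} {R c : ℝ}
    (h : Small M p R) (hc : c = 2 / R ^ 2) {u : E n} (hu : Dir p R u) {k : Fin m → ℤ}
    (hmem : tws p (Ap c k) ∈ SympC0 M (omega n)) : k = 0 := by
  have hR := h.pos
  have hR2 : 0 < R ^ 2 := by positivity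
  have hc0 : 0 < c := by rw [hc]; positivity
  have hcR : c * R ^ 2 = 2 := by rw [hc]; field_simp
  obtain ⟨K, hKM, hK, Φ, hΦ, hS, h0, h1⟩ := hmem
  funext i
  -- the ray
  set g : ℝ → E n := fun s => p i + s • u with hg
  have hgc : Continuous g := by fun_prop
  have hgs : ∀ s, g s - p i = s • u := fun s => by simp [hg]
  have hgn : ∀ s, nsq (g s - p i) = s ^ 2 := by
    intro s
    rw [nsq_eq, hgs, norm_smul, hu.norm, mul_one, Real.norm_eq_abs, sq_abs]
  have hgn' : ∀ s, 0 ≤ s → ‖g s - p i‖ = s := by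
    intro s hs
    rw [hgs, norm_smul, hu.norm, mul_one, Real.norm_eq_abs, abs_of_nonneg hs]
  have hinf : ∀ C : ℝ, ∃ s, C ≤ s ∧ g s ∉ K := by
    intro C
    obtain ⟨ρ, hρ⟩ := hK.isBounded.subset_ball (p i)
    refine ⟨max C |ρ|, le_max_left _ _, fun h' => ?_⟩
    have h2 := hρ h'
    rw [Metric.mem_ball, dist_eq_norm, hgn' _ ((abs_nonneg ρ).trans (le_max_right _ _))] at h2
    have h3 := le_max_right C |ρ|
    have h4 := le_abs_self ρ
    linarith
  have hinn : ∀ s, 0 < s → s ≤ 2 * R → g s ∈ M := by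
    intro s hs hs2
    refine h.ball i _ ?_ ?_
    · intro h'
      have := hgn' s hs.le
      rw [h', sub_self, norm_zero] at this
      exact hs.ne this
    · rw [hgn' s hs.le]; exact hs2
  obtain ⟨b, hb0, hbK, hbM⟩ := exit_ray hM hK hKM hgc hinf (hinn (2 * R) (by positivity) le_rfl)
  -- the start
  obtain ⟨a, ha0, haR, haK⟩ : ∃ a, 0 < a ∧ a < R / 2 ∧ g a ∉ K := by
    have hpK : p i ∈ (Kᶜ : Set (E n)) := fun h' => h.notMem i (hKM h')
    obtain ⟨ε, hε, hball⟩ := Metric.isOpen_iff.1 hK.isClosed.isOpen_compl _ hpK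
    refine ⟨min (ε / 2) (R / 4), lt_min (by positivity) (by positivity), ?_, ?_⟩
    · have := min_le_right (ε / 2) (R / 4)
      linarith
    · have h2 : 0 < min (ε / 2) (R / 4) := lt_min (by positivity) (by positivity)
      have h3 : g (min (ε / 2) (R / 4)) ∈ Metric.ball (p i) ε := by
        rw [Metric.mem_ball, dist_eq_norm, hgn' _ h2.le]
        have := min_le_left (ε / 2) (R / 4)
        linarith
      exact fun h' => hball h3 h'
  have hab : a ≤ b := by linarith
  -- the path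
  set r : unitInterval → ℝ := fun t => a + t * (b - a) with hr
  have hrc : Continuous r := by fun_prop
  have hra : ∀ t, a ≤ r t := by
    intro t
    have := t.2.1
    simp only [hr]
    nlinarith
  have hrb : ∀ t, r t ≤ b := by
    intro t
    have := t.2.2
    simp only [hr]
    nlinarith
  have hr_0 : r 0 = a := by simp [hr]
  have hr_1 : r 1 = b := by simp [hr]
  set γ : unitInterval → E n := fun t => g (r t) with hγ
  have hγc : Continuous γ := hgc.comp hrc
  have hγM : ∀ t, γ t ∈ M := by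
    intro t
    by_cases h' : r t ≤ 2 * R
    · exact hinn _ (ha0.trans_le (hra t)) h'
    · exact hbM _ (not_le.1 h').le (hrb t)
  set α : ℝ → ℝ := Ap c k i with hα
  have hαs : ContDiff ℝ ∞ α := Ap_smooth c k i
  have hαc : Continuous α := hαs.continuous
  have hαd : Continuous (deriv α) := hαs.continuous_deriv (by simp)
  set X : unitInterval → ℝ := fun t => deriv α (r t ^ 2) * (r t ^ 2) with hX
  have hXc : Continuous X := (hαd.comp (hrc.pow 2)).mul (hrc.pow 2)
  set L : unitInterval → ℂ := fun t => (n : ℂ) * (((α (r t ^ 2) : ℝ) : ℂ) * Complex.I) +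
    Complex.log (1 + ((X t : ℝ) : ℂ) * Complex.I) with hL
  have hslit : ∀ x : ℝ, (1 + (x : ℂ) * Complex.I) ∈ Complex.slitPlane := by
    intro x
    left
    simp
  have hLc : Continuous L := by
    refine (continuous_const.mul ((Complex.continuous_ofReal.comp
      (hαc.comp (hrc.pow 2))).mul continuous_const)).add ?_
    refine Continuous.clog ?_ fun t => hslit _
    exact continuous_const.add ((Complex.continuous_ofReal.comp hXc).mul continuous_const)
  have hexp : ∀ t, Complex.exp (L t) = (cmat (fderiv ℝ (tws p (Ap c k)) (γ t))).det := by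
    intro t
    have hz : ∀ j, j ≠ i → γ t ∉ cb p R j := by
      intro j hj hmem
      rw [mem_cb] at hmem
      exact absurd (hu.away i j hj.symm (r t)) (not_lt.2 hmem)
    have h2 : fderiv ℝ (tws p (Ap c k)) (γ t) = fderiv ℝ (T (p i) (Ap c k i)) (γ t) :=
      (glue_eventually (boxes h) (adapted h (Ap_prof h.pos hc k)) hz).fderiv_eq
    obtain ⟨D, hD, hD'⟩ := hasFDerivAt_T (p := p i) hαs (γ t)
    rw [h2, hD.fderiv, cmat_twist hD', hgn]
    simp only [hL]
    rw [Complex.exp_add, Complex.exp_nat_mul, Complex.exp_log (Complex.slitPlane_ne_zero (hslit _))]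
  have hda : deriv α (a ^ 2) = 0 := by
    have h2 : α =ᶠ[𝓝 (a ^ 2)] fun _ => 0 := by
      have h3 : a ^ 2 < R ^ 2 / 2 := by nlinarith
      filter_upwards [gt_mem_nhds h3] with x hx
      exact Ap_low (by nlinarith)
    rw [h2.deriv_eq]; simp
  have hdb : deriv α (b ^ 2) = 0 := by
    have h2 : α =ᶠ[𝓝 (b ^ 2)] fun _ => (k i : ℝ) * (2 * Real.pi) := by
      have h3 : R ^ 2 < b ^ 2 := by nlinarith
      filter_upwards [lt_mem_nhds h3] with x hx
      exact Ap_high (by nlinarith)
    rw [h2.deriv_eq]; simp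
  have hαa : α (a ^ 2) = 0 := Ap_low (by nlinarith)
  have hαb : α (b ^ 2) = k i * (2 * Real.pi) := Ap_high (by nlinarith)
  have hL0 : L 0 = 0 := by
    simp only [hL, hX, hr_0, hda, hαa]
    simp
  have hL1 : L 1 = (n : ℂ) * (((k i * (2 * Real.pi) : ℝ) : ℂ) * Complex.I) := by
    simp only [hL, hX, hr_1, hdb, hαb]
    simp
  have e0 : γ 0 ∉ K := by
    change g (r 0) ∉ K
    rw [hr_0]; exact haK
  have e1 : γ 1 ∉ K := by
    change g (r 1) ∉ K
    rw [hr_1]; exact hbK
  have key := obstruct hM hK hΦ hS h0 h1 hγc hγM e0 e1 hLc hexp hL0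
  rw [hL1] at key
  have hn' : (n : ℂ) ≠ 0 := by exact_mod_cast hn.ne'
  have h3 : ((k i * (2 * Real.pi) : ℝ) : ℂ) = 0 := by
    rcases mul_eq_zero.1 key with h' | h'
    · exact absurd h' hn'
    · exact (mul_eq_zero.1 h').resolve_right Complex.I_ne_zero
  have h4 : (k i : ℝ) * (2 * Real.pi) = 0 := by exact_mod_cast h3
  have h5 : (k i : ℝ) = 0 := by
    rcases mul_eq_zero.1 h4 with h' | h'
    · exact h'
    · exact absurd h' (by positivity)
  have h6 : k i = 0 := by exact_mod_cast h5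
  rw [h6]; rfl

end Pool.Agent.Y475.Sy
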